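import Pool.Agent.helper82.CH.SpecA

/-!
# Project CH, row NTL: the function `ψ(N a)` is not a power of the norm
-/

set_option autoImplicit false

open NumberField Complex Pool.Agent.UN

namespace Pool.Agent.CH

theorem NTL_pow {m : ℕ} (ψ : DirichletCharacter ℂ m) (hm : 0 < m) {p n : ℕ} (hp : Nat.Coprime p m) :
    ψ ((p ^ n : ℕ) : ZMod m) ^ Nat.totient m = 1 := by
  have : NeZero m := ⟨hm.ne'⟩
  have h1 : Nat.Coprime (p ^ n) m := Nat.Coprime.pow_left n hp
  rw [← map_pow]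
  have h2 := ZMod.pow_totient (ZMod.unitOfCoprime (p ^ n) h1)
  have h3 : ((p ^ n : ℕ) : ZMod m) = (ZMod.unitOfCoprime (p ^ n) h1 : (ZMod m)ˣ) := by simp
  rw [h3, ← Units.val_pow_eq_pow_val, h2, Units.val_one, map_one]

theorem NTL_log {a b p q : ℕ} (hp : p.Prime) (hq : q.Prime) (hpq : p ≠ q) (ha : a ≠ 0)
    (h : (a : ℝ) * Real.log p = (b : ℝ) * Real.log q) : False := by
  rw [← Real.log_pow, ← Real.log_pow] at h
  have hp0 : (0 : ℝ) < (p : ℝ) ^ a := by have := hp.pos; positivity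
  have hq0 : (0 : ℝ) < (q : ℝ) ^ b := by have := hq.pos; positivity
  have h1 := Real.log_injOn_pos (Set.mem_Ioi.2 hp0) (Set.mem_Ioi.2 hq0) h
  have h2 : p ^ a = q ^ b := by exact_mod_cast h1
  have h3 : p ∣ q ^ b := by
    rw [← h2]
    exact dvd_pow_self p ha
  exact hpq ((Nat.prime_dvd_prime_iff_eq hp hq).1 (hp.dvd_of_dvd_pow h3))

theorem NTL_exp {x : ℝ} (h : Complex.exp (-((x : ℝ) : ℂ) * I) = 1) : ∃ A : ℤ, x = 2 * Real.pi * A := by
  rw [Complex.exp_eq_one_iff] at h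
  obtain ⟨n, hn⟩ := h
  refine ⟨-n, ?_⟩
  have h1 : (-(x : ℂ)) = (n : ℂ) * (2 * Real.pi) := by
    have h2 : (-(x : ℂ)) * I = ((n : ℂ) * (2 * Real.pi)) * I := by rw [hn]; ring
    exact mul_right_cancel₀ Complex.I_ne_zero h2
  have h3 : (((-x : ℝ)) : ℂ) = (((n : ℝ) * (2 * Real.pi) : ℝ) : ℂ) := by
    push_cast
    exact h1
  have h4 : -x = (n : ℝ) * (2 * Real.pi) := Complex.ofReal_injective h3
  push_cast
  linarith

theorem NTL : NTL_stmt := by
  intro F _ _ m ψ χ hm hχ hT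
  rintro ⟨t₀, ht⟩
  by_cases h0 : t₀ = 0
  · subst h0
    refine hT fun a ha hc => ?_
    rw [← hχ a ha hc, ht a ha]
    unfold ph
    simp
  have hn : 0 < Module.finrank ℚ F := Module.finrank_pos
  have hφ : 0 < Nat.totient m := Nat.totient_pos.2 hm
  have key : ∀ p : ℕ, p.Prime → ¬ p ∣ m → ∃ A : ℤ,
      t₀ * (Module.finrank ℚ F : ℝ) * (Nat.totient m : ℝ) * Real.log p = 2 * Real.pi * A := by
    intro p hp hpm
    have hcop : Nat.Coprime p m := (Nat.Prime.coprime_iff_not_dvd hp).2 hpm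
    have hpF : ((p : ℕ) : 𝓞 F) ≠ 0 := by exact_mod_cast hp.ne_zero
    have hne : Ideal.span {((p : ℕ) : 𝓞 F)} ≠ ⊥ := by
      rw [Ne, Ideal.span_singleton_eq_bot]
      exact hpF
    have hsup : Ideal.span {((p : ℕ) : 𝓞 F)} ⊔ Ideal.span {((m : ℕ) : 𝓞 F)} = ⊤ := by
      rw [Ideal.eq_top_iff_one]
      have h1 := Nat.isCoprime_iff_coprime.2 hcop
      obtain ⟨u, v, huv⟩ := h1
      have h2 : ((u : ℤ) : 𝓞 F) * ((p : ℕ) : 𝓞 F) + ((v : ℤ) : 𝓞 F) * ((m : ℕ) : 𝓞 F) = 1 := by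
        exact_mod_cast congrArg (fun z : ℤ => ((z : ℤ) : 𝓞 F)) huv
      rw [← h2]
      exact Submodule.add_mem_sup (Ideal.mul_mem_left _ _ (Ideal.mem_span_singleton_self _))
        (Ideal.mul_mem_left _ _ (Ideal.mem_span_singleton_self _))
    have hN : Ideal.absNorm (Ideal.span {((p : ℕ) : 𝓞 F)}) = p ^ Module.finrank ℚ F := by
      rw [Ideal.absNorm_span_natCast, NumberField.RingOfIntegers.rank]
    have h3 := hχ _ hne hsup
    rw [ht _ hne] at h3
    unfold nch at h3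
    rw [if_neg hne, hN] at h3
    have h4 := NTL_pow ψ hm (n := Module.finrank ℚ F) hcop
    rw [← h3] at h4
    unfold ph at h4
    rw [← Complex.exp_nat_mul] at h4
    have h5 : ((Nat.totient m : ℕ) : ℂ) * (-(((t₀ * Real.log (Nm (Ideal.span {((p : ℕ) : 𝓞 F)}))) : ℝ) : ℂ) * I)
        = -(((t₀ * (Module.finrank ℚ F : ℝ) * (Nat.totient m : ℝ) * Real.log p : ℝ)) : ℂ) * I := by
      unfold Nm
      rw [hN]
      push_cast
      rw [Real.log_pow]
      push_cast
      ring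
    rw [h5] at h4
    exact NTL_exp h4
  -- two primes not dividing `m`
  obtain ⟨p, hpm, hp⟩ := Nat.exists_infinite_primes (m + 1)
  obtain ⟨q, hqp, hq⟩ := Nat.exists_infinite_primes (p + 1)
  have hpnm : ¬ p ∣ m := fun h => by have := Nat.le_of_dvd hm h; omega
  have hqnm : ¬ q ∣ m := fun h => by have := Nat.le_of_dvd hm h; omega
  obtain ⟨A, hA⟩ := key p hp hpnm
  obtain ⟨B, hB⟩ := key q hq hqnm
  set c : ℝ := t₀ * (Module.finrank ℚ F : ℝ) * (Nat.totient m : ℝ) with hc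
  have hc0 : c ≠ 0 := by
    rw [hc]
    have h1 : (Module.finrank ℚ F : ℝ) ≠ 0 := by exact_mod_cast hn.ne'
    have h2 : (Nat.totient m : ℝ) ≠ 0 := by exact_mod_cast hφ.ne'
    exact mul_ne_zero (mul_ne_zero h0 h1) h2
  have hlp : 0 < Real.log p := Real.log_pos (by exact_mod_cast hp.one_lt)
  have hlq : 0 < Real.log q := Real.log_pos (by exact_mod_cast hq.one_lt)
  have hpi := Real.pi_pos
  have hB0 : B ≠ 0 := by
    intro h
    rw [h] at hB
    simp only [Int.cast_zero, mul_zero] at hB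
    exact (mul_ne_zero hc0 hlq.ne') hB
  have hAB : (B : ℝ) * Real.log p = (A : ℝ) * Real.log q := by
    have h1 : c * ((B : ℝ) * Real.log p) = c * ((A : ℝ) * Real.log q) := by
      calc c * ((B : ℝ) * Real.log p) = B * (c * Real.log p) := by ring
        _ = A * (c * Real.log q) := by rw [hA, hB]; ring
        _ = c * ((A : ℝ) * Real.log q) := by ring
    exact mul_left_cancel₀ hc0 h1
  have habs : ((B.natAbs : ℕ) : ℝ) * Real.log p = ((A.natAbs : ℕ) : ℝ) * Real.log q := by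
    have h1 := congrArg abs hAB
    rw [abs_mul, abs_mul, abs_of_pos hlp, abs_of_pos hlq] at h1
    rw [Nat.cast_natAbs, Nat.cast_natAbs]
    push_cast
    exact h1
  exact NTL_log hp hq (by omega) (Int.natAbs_ne_zero.2 hB0) habs

end Pool.Agent.CH
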